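import Pool.Agent.H369.PL.Stm

/-!
# Expansions at the maximal ideals of a Dedekind domain over an algebraically closed field (`S_exp`)
-/

set_option autoImplicit false
set_option linter.unusedSectionVars false

namespace Pool.Agent.H161.PL

open Pool.Agent.H369.PL

/-- the truncated sum -/
noncomputable def Tr {F A : Type} [Field F] [CommRing A] [Algebra F A] (π : A) (n : ℕ)
    (p : PowerSeries F) : A := ∑ i ∈ Finset.range n, algebraMap F A (PowerSeries.coeff i p) * π ^ i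

/-- `p` is the expansion of `f` -/
def Ex {F A : Type} [Field F] [CommRing A] [Algebra F A] (𝔪 : Ideal A) (π : A) (f : A)
    (p : PowerSeries F) : Prop := ∀ n : ℕ, f - Tr π n p ∈ 𝔪 ^ n

section exp

variable {F A : Type} [Field F] [IsAlgClosed F] [CommRing A] [IsDedekindDomain A]
  [Algebra F A] [Algebra.FiniteType F A] {𝔪 : Ideal A}

theorem exp_res (h𝔪 : 𝔪.IsMaximal) (f : A) : ∃ c : F, f - algebraMap F A c ∈ 𝔪 := by
  letI : Field (A ⧸ 𝔪) := Ideal.Quotient.field 𝔪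
  haveI : Algebra.FiniteType F (A ⧸ 𝔪) :=
    Algebra.FiniteType.of_surjective (Ideal.Quotient.mkₐ F 𝔪) (Ideal.Quotient.mkₐ_surjective F 𝔪)
  haveI : Module.Finite F (A ⧸ 𝔪) := finite_of_finite_type_of_isJacobsonRing F (A ⧸ 𝔪)
  haveI : Algebra.IsIntegral F (A ⧸ 𝔪) := Algebra.IsIntegral.of_finite F (A ⧸ 𝔪)
  have hb := IsAlgClosed.algebraMap_bijective_of_isIntegral (k := F) (K := A ⧸ 𝔪)
  obtain ⟨c, hc⟩ := hb.2 (Ideal.Quotient.mk 𝔪 f)
  refine ⟨c, ?_⟩
  rw [← Ideal.Quotient.eq, ← hc]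
  rfl

omit [IsAlgClosed F] [IsDedekindDomain A] [Algebra.FiniteType F A] in
theorem exp_inj (h𝔪 : 𝔪.IsMaximal) {c : F} (h : algebraMap F A c ∈ 𝔪) : c = 0 := by
  by_contra hc
  have hu : IsUnit (algebraMap F A c) := (IsUnit.mk0 c hc).map (algebraMap F A)
  exact h𝔪.ne_top (Ideal.eq_top_of_isUnit_mem 𝔪 h hu)

omit [IsAlgClosed F] [Algebra F A] [Algebra.FiniteType F A] [Field F] in
theorem exp_pow (h𝔪 : 𝔪.IsMaximal) (hne : 𝔪 ≠ ⊥) {π : A} (h1 : π ∈ 𝔪) (h2 : π ∉ 𝔪 ^ 2)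
    (i : ℕ) : π ^ i ∉ 𝔪 ^ (i + 1) := by
  let v : IsDedekindDomain.HeightOneSpectrum A := ⟨𝔪, h𝔪.isPrime, hne⟩
  have hv : v.asIdeal = 𝔪 := rfl
  have h0 : π ≠ 0 := by
    rintro rfl
    exact h2 (Ideal.zero_mem _)
  have e1 : v.intValuation π ≤ WithZero.exp (-((1:ℕ):ℤ)) := by
    rw [v.intValuation_le_pow_iff_mem, hv, pow_one]; exact h1
  have e2 : ¬ v.intValuation π ≤ WithZero.exp (-((2:ℕ):ℤ)) := by
    rw [v.intValuation_le_pow_iff_mem, hv]; exact h2
  have e3 : v.intValuation π ≠ 0 := v.intValuation_ne_zero π h0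
  obtain ⟨m, hm⟩ : ∃ m : ℤ, v.intValuation π = WithZero.exp m :=
    ⟨WithZero.log (v.intValuation π), (WithZero.exp_log e3).symm⟩
  rw [hm, WithZero.exp_le_exp] at e1 e2
  have hm1 : m = -1 := by push_cast at e1 e2; omega
  intro h
  rw [← hv, ← v.intValuation_le_pow_iff_mem, map_pow, hm, hm1, ← WithZero.exp_nsmul,
    WithZero.exp_le_exp] at h
  push_cast at h
  simp at h

/-- one more digit -/
theorem exp_step (h𝔪 : 𝔪.IsMaximal) (hne : 𝔪 ≠ ⊥) {π : A} (h1 : π ∈ 𝔪) (h2 : π ∉ 𝔪 ^ 2)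
    (i : ℕ) {f : A} (hf : f ∈ 𝔪 ^ i) : ∃ c : F, f - algebraMap F A c * π ^ i ∈ 𝔪 ^ (i + 1) := by
  haveI := h𝔪.isPrime
  obtain ⟨d, e, he, hde⟩ := Ideal.exists_mul_add_mem_pow_succ hne (π ^ i) f
    (Ideal.pow_mem_pow h1 i) (exp_pow h𝔪 hne h1 h2 i) hf
  obtain ⟨c, hc⟩ := exp_res (F := F) h𝔪 d
  refine ⟨c, ?_⟩
  have : f - algebraMap F A c * π ^ i = π ^ i * (d - algebraMap F A c) + e := by
    rw [← hde]; ring
  rw [this]
  refine Ideal.add_mem _ ?_ he
  rw [pow_succ]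
  exact Ideal.mul_mem_mul (Ideal.pow_mem_pow h1 i) hc

omit [IsAlgClosed F] [IsDedekindDomain A] [Algebra.FiniteType F A] in
theorem Tr_succ (π : A) (n : ℕ) (p : PowerSeries F) :
    Tr π (n + 1) p = Tr π n p + algebraMap F A (PowerSeries.coeff n p) * π ^ n :=
  Finset.sum_range_succ _ _

omit [IsAlgClosed F] [IsDedekindDomain A] [Algebra.FiniteType F A] in
theorem Tr_sub (π : A) (n : ℕ) (p q : PowerSeries F) :
    Tr π n (p - q) = Tr π n p - Tr π n q := by
  unfold Tr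
  rw [← Finset.sum_sub_distrib]
  refine Finset.sum_congr rfl fun i _ => ?_
  rw [map_sub, map_sub, sub_mul]

omit [IsAlgClosed F] [IsDedekindDomain A] [Algebra.FiniteType F A] in
theorem Tr_add (π : A) (n : ℕ) (p q : PowerSeries F) :
    Tr π n (p + q) = Tr π n p + Tr π n q := by
  unfold Tr
  rw [← Finset.sum_add_distrib]
  refine Finset.sum_congr rfl fun i _ => ?_
  rw [map_add, map_add, add_mul]

/-- existence of the expansion -/
theorem Ex_exists (h𝔪 : 𝔪.IsMaximal) (hne : 𝔪 ≠ ⊥) {π : A} (h1 : π ∈ 𝔪) (h2 : π ∉ 𝔪 ^ 2)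
    (f : A) : ∃ p : PowerSeries F, Ex 𝔪 π f p := by
  classical
  obtain ⟨dg, hdg⟩ : ∃ dg : ℕ → A → F, ∀ (i : ℕ) (g : A), g ∈ 𝔪 ^ i →
      g - algebraMap F A (dg i g) * π ^ i ∈ 𝔪 ^ (i + 1) := by
    refine ⟨fun i g => if h : g ∈ 𝔪 ^ i then (exp_step (F := F) h𝔪 hne h1 h2 i h).choose else 0,
      fun i g hg => ?_⟩
    simp only [dif_pos hg]
    exact (exp_step (F := F) h𝔪 hne h1 h2 i hg).choose_spec
  let s : ℕ → A := fun n => Nat.rec (motive := fun _ => A) 0
    (fun n t => t + algebraMap F A (dg n (f - t)) * π ^ n) n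
  have hs0 : s 0 = 0 := rfl
  have hs : ∀ n, s (n + 1) = s n + algebraMap F A (dg n (f - s n)) * π ^ n := fun n => rfl
  refine ⟨PowerSeries.mk fun n => dg n (f - s n), fun n => ?_⟩
  have hT : ∀ n, Tr π n (PowerSeries.mk fun n => dg n (f - s n)) = s n := by
    intro n
    induction n with
    | zero => rw [hs0]; rfl
    | succ n ih => rw [Tr_succ, ih, hs, PowerSeries.coeff_mk]
  rw [hT]
  induction n with
  | zero => rw [pow_zero, Ideal.one_eq_top]; trivial
  | succ n ih =>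
    rw [hs, ← sub_sub]
    exact hdg n _ ih

omit [IsAlgClosed F] [Algebra.FiniteType F A] in
theorem Ex_zero (h𝔪 : 𝔪.IsMaximal) (hne : 𝔪 ≠ ⊥) {π : A} (h1 : π ∈ 𝔪) (h2 : π ∉ 𝔪 ^ 2)
    {p : PowerSeries F} (h : ∀ n : ℕ, Tr π n p ∈ 𝔪 ^ n) : p = 0 := by
  have key : ∀ n, ∀ i < n, PowerSeries.coeff i p = 0 := by
    intro n
    induction n with
    | zero => intro i hi; omega
    | succ n ih =>
      intro i hi
      rcases Nat.lt_succ_iff_lt_or_eq.1 hi with hi | rfl
      · exact ih i hi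
      · have h3 := h (i + 1)
        have h4 : Tr π i p = 0 := by
          unfold Tr
          refine Finset.sum_eq_zero fun j hj => ?_
          rw [ih j (Finset.mem_range.1 hj), map_zero, zero_mul]
        rw [Tr_succ, h4, zero_add] at h3
        by_contra hc
        have hu : IsUnit (algebraMap F A (PowerSeries.coeff i p)) :=
          (IsUnit.mk0 _ hc).map (algebraMap F A)
        exact exp_pow h𝔪 hne h1 h2 i ((Ideal.unit_mul_mem_iff_mem _ hu).1 h3)
  ext n
  exact key (n + 1) n (Nat.lt_succ_self n)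

omit [IsAlgClosed F] [Algebra.FiniteType F A] in
theorem Ex_unique (h𝔪 : 𝔪.IsMaximal) (hne : 𝔪 ≠ ⊥) {π : A} (h1 : π ∈ 𝔪) (h2 : π ∉ 𝔪 ^ 2)
    {f : A} {p q : PowerSeries F} (hp : Ex 𝔪 π f p) (hq : Ex 𝔪 π f q) : p = q := by
  rw [← sub_eq_zero]
  refine Ex_zero h𝔪 hne h1 h2 fun n => ?_
  have h3 := Ideal.sub_mem _ (hq n) (hp n)
  rw [Tr_sub]
  rwa [sub_sub_sub_cancel_left] at h3

omit [IsAlgClosed F] [IsDedekindDomain A] [Algebra.FiniteType F A] in
theorem Ex_add {π : A} {f g : A} {p q : PowerSeries F} (hp : Ex 𝔪 π f p) (hq : Ex 𝔪 π g q) :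
    Ex 𝔪 π (f + g) (p + q) := by
  intro n
  rw [Tr_add, add_sub_add_comm]
  exact Ideal.add_mem _ (hp n) (hq n)

omit [IsAlgClosed F] [IsDedekindDomain A] [Algebra.FiniteType F A] in
theorem Tr_eq_aeval (π : A) (n : ℕ) (p : PowerSeries F) :
    Tr π n p = Polynomial.aeval π (PowerSeries.trunc n p) := by
  match n with
  | 0 =>
    have h0 : PowerSeries.trunc 0 p = 0 := by
      ext m
      rw [PowerSeries.coeff_trunc, if_neg (Nat.not_lt_zero m), Polynomial.coeff_zero]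
    rw [h0, map_zero]
    rfl
  | n + 1 =>
    rw [Polynomial.aeval_eq_sum_range' (PowerSeries.natDegree_trunc_lt p n)]
    unfold Tr
    refine Finset.sum_congr rfl fun i hi => ?_
    rw [PowerSeries.coeff_trunc, if_pos (Finset.mem_range.1 hi), Algebra.smul_def]

omit [IsAlgClosed F] [IsDedekindDomain A] [Algebra.FiniteType F A] in
theorem Tr_mul {π : A} (h1 : π ∈ 𝔪) (n : ℕ) (p q : PowerSeries F) :
    Tr π n p * Tr π n q - Tr π n (p * q) ∈ 𝔪 ^ n := by
  rw [Tr_eq_aeval, Tr_eq_aeval, Tr_eq_aeval, ← map_mul, ← map_sub]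
  have hd : (Polynomial.X : Polynomial F) ^ n ∣
      PowerSeries.trunc n p * PowerSeries.trunc n q - PowerSeries.trunc n (p * q) := by
    rw [Polynomial.X_pow_dvd_iff]
    intro d hd
    rw [Polynomial.coeff_sub, PowerSeries.coeff_trunc, if_pos hd,
      PowerSeries.coeff_mul_eq_coeff_trunc_mul_trunc p q hd, ← Polynomial.coe_mul,
      Polynomial.coeff_coe, sub_self]
  obtain ⟨r, hr⟩ := hd
  rw [hr, map_mul, map_pow, Polynomial.aeval_X]
  exact Ideal.mul_mem_right _ _ (Ideal.pow_mem_pow h1 n)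

omit [IsAlgClosed F] [IsDedekindDomain A] [Algebra.FiniteType F A] in
theorem Ex_mul {π : A} (h1 : π ∈ 𝔪) {f g : A} {p q : PowerSeries F} (hp : Ex 𝔪 π f p)
    (hq : Ex 𝔪 π g q) : Ex 𝔪 π (f * g) (p * q) := by
  intro n
  have h3 : f * g - Tr π n (p * q) = (f - Tr π n p) * g + Tr π n p * (g - Tr π n q) +
      (Tr π n p * Tr π n q - Tr π n (p * q)) := by ring
  rw [h3]
  refine Ideal.add_mem _ (Ideal.add_mem _ ?_ ?_) (Tr_mul h1 n p q)
  · exact Ideal.mul_mem_right _ _ (hp n)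
  · exact Ideal.mul_mem_left _ _ (hq n)

omit [IsAlgClosed F] [IsDedekindDomain A] [Algebra.FiniteType F A] in
theorem Ex_const (π : A) (c : F) : Ex 𝔪 π (algebraMap F A c) (PowerSeries.C c) := by
  intro n
  rcases Nat.eq_zero_or_pos n with rfl | hn
  · rw [pow_zero, Ideal.one_eq_top]; trivial
  · have : Tr π n (PowerSeries.C c) = algebraMap F A c := by
      unfold Tr
      rw [Finset.sum_eq_single 0]
      · rw [PowerSeries.coeff_zero_C, pow_zero, mul_one]
      · intro i _ hi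
        rw [PowerSeries.coeff_C, if_neg hi, map_zero, zero_mul]
      · intro h
        exact absurd (Finset.mem_range.2 hn) h
    rw [this, sub_self]
    exact Ideal.zero_mem _

omit [IsAlgClosed F] [IsDedekindDomain A] [Algebra.FiniteType F A] in
theorem Ex_X {π : A} (h1 : π ∈ 𝔪) : Ex 𝔪 π π (PowerSeries.X : PowerSeries F) := by
  intro n
  match n with
  | 0 => rw [pow_zero, Ideal.one_eq_top]; trivial
  | 1 =>
    have : Tr π 1 (PowerSeries.X : PowerSeries F) = 0 := by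
      unfold Tr
      rw [Finset.sum_range_one, PowerSeries.coeff_zero_X, map_zero, zero_mul]
    rw [this, sub_zero, pow_one]
    exact h1
  | n + 2 =>
    have : Tr π (n + 2) (PowerSeries.X : PowerSeries F) = π := by
      unfold Tr
      rw [Finset.sum_eq_single 1]
      · rw [PowerSeries.coeff_one_X, map_one, one_mul, pow_one]
      · intro i _ hi
        rw [PowerSeries.coeff_X, if_neg hi, map_zero, zero_mul]
      · intro h
        exact absurd (Finset.mem_range.2 (by omega)) h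
    rw [this, sub_self]
    exact Ideal.zero_mem _

end exp

theorem exp : S_exp := by
  intro F A _ _ _ _ _ _ 𝔪 h𝔪 hne
  obtain ⟨π, h1', h2'⟩ := Ideal.exists_mem_pow_notMem_pow_succ 𝔪 hne h𝔪.ne_top 1
  have h1 : π ∈ 𝔪 := by rwa [pow_one] at h1'
  have h2 : π ∉ 𝔪 ^ 2 := h2'
  choose E hE using fun f : A => Ex_exists (F := F) h𝔪 hne h1 h2 f
  have huniq : ∀ (f : A) (p : PowerSeries F), Ex 𝔪 π f p → E f = p := fun f p hp =>
    Ex_unique h𝔪 hne h1 h2 (hE f) hp
  let e : A →+* PowerSeries F :=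
    { toFun := E
      map_one' := huniq _ _ (by
        have := Ex_const (𝔪 := 𝔪) π (1 : F)
        rwa [map_one, map_one] at this)
      map_mul' := fun f g => huniq _ _ (Ex_mul h1 (hE f) (hE g))
      map_zero' := huniq _ _ (by
        have := Ex_const (𝔪 := 𝔪) π (0 : F)
        rwa [map_zero, map_zero] at this)
      map_add' := fun f g => huniq _ _ (Ex_add (hE f) (hE g)) }
  have hc0 : ∀ f : A, f - algebraMap F A (PowerSeries.coeff 0 (E f)) ∈ 𝔪 := by
    intro f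
    have h3 := hE f 1
    unfold Tr at h3
    rwa [Finset.sum_range_one, pow_zero, mul_one, pow_one] at h3
  refine ⟨e, ⟨fun c => huniq _ _ (Ex_const π c), π, ?_, ?_⟩, ?_⟩
  · have h3 : e π = PowerSeries.X := huniq _ _ (Ex_X h1)
    rw [h3, PowerSeries.coeff_zero_X]
  · have h3 : e π = PowerSeries.X := huniq _ _ (Ex_X h1)
    rw [h3, PowerSeries.coeff_one_X]
    exact one_ne_zero
  · ext f
    unfold ctr
    rw [RingHom.mem_ker]
    change PowerSeries.constantCoeff (E f) = 0 ↔ f ∈ 𝔪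
    rw [← PowerSeries.coeff_zero_eq_constantCoeff_apply]
    constructor
    · intro h
      have h3 := hc0 f
      rwa [h, map_zero, sub_zero] at h3
    · intro h
      have h3 := Ideal.sub_mem _ h (hc0 f)
      rw [sub_sub_cancel] at h3
      exact exp_inj h𝔪 h3

end Pool.Agent.H161.PL
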